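import Pool.Agent.N193.PS.Eh

/-!
# The conjecture of Elliott and Halberstam on average over the residues `c₀ + κ ⌊f n⌋`, `f` smoothly varying of non-integral
index

Absolute values over all moduli and arbitrary heights inside; the residue is averaged, with arbitrary coefficients, over
the values `⌊f n⌋`, `n ≤ x`.

Method: the characteristic function of the integer part of `f n` is small at all frequencies which are not close to
integers (van der Corput differencing and the inequality of Kusmin and Landau on dyadic blocks for all orders of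
differencing, a discrete Fejer kernel for the passage to integer parts). The passage from such bounds to averages of primes
in residue classes is from the starting files (`Pool.Agent.TH872.An.av_law`).

From Mathlib: `ArithmeticFunction.vonMangoldt`: the function `Λ`; `Nat.totient`: Euler's function; `ContDiffAt ℝ ⊤`:
infinitely differentiable at a point; `iteratedDeriv m f`: the derivative of order `m`; `⌊y⌋₊`: the integer part of `y`, and
`0` for `y < 0`.
-/

set_option autoImplicit false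

namespace Pool.Agent.Results.MP_a78e8f_nt.NonIntegralOrderAverages

open Finset Filter

/-- `f` is smoothly varying of index `c`: it is infinitely differentiable and positive for large arguments, and
`t ^ m f⁽ᵐ⁾(t) / f(t) → c (c - 1) ... (c - m + 1)` for every `m`. -/
def SmoothlyVarying (c : ℝ) (f : ℝ → ℝ) : Prop :=
  (∃ t₀ : ℝ, ∀ t > t₀, ContDiffAt ℝ ((⊤ : ℕ∞) : WithTop ℕ∞) f t ∧ 0 < f t) ∧
  ∀ m : ℕ, Tendsto (fun t => t ^ m * iteratedDeriv m f t / f t) atTop (nhds (∏ i ∈ range m, (c - i)))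

/-- `ψ(X; q, a)`: the sum of `Λ(n)` over the `n ≤ X` with `n ≡ a (mod q)`. -/
noncomputable def psi (X q a : ℕ) : ℝ :=
  ∑ n ∈ (Icc 1 X).filter (fun n => n ≡ a [MOD q]), ArithmeticFunction.vonMangoldt n

/-- The sum of `w(n) (ψ(X; q, a) - X / φ(q))` over the `n ≤ x` for which the residue `a = c₀ + κ ⌊f n⌋` is positive
and coprime to `q`. -/
noncomputable def total (f : ℝ → ℝ) (x : ℕ) (κ c₀ : ℤ) (w : ℕ → ℝ) (X q : ℕ) : ℝ :=
  ∑ n ∈ (Icc 1 x).filter (fun n : ℕ => 0 < c₀ + κ * (⌊f n⌋₊ : ℕ) ∧ (c₀ + κ * (⌊f n⌋₊ : ℕ)).toNat.Coprime q),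
    w n * (psi X q (c₀ + κ * (⌊f n⌋₊ : ℕ)).toNat - (X : ℝ) / Nat.totient q)

open Pool.Agent.N193.PS

/-- **(1)** Let `f` be smoothly varying of an index `c > 0` which is not an integer, and let `κ ≠ 0`, `B`, `T`, `U`, `A` and
`0 < ε < 1` be fixed. Let `N` be large and let `x` be such that `f n ≤ N` for the integers `1 ≤ n ≤ x` and
`N ≤ f x log ^ A N`. Let `c₀` be an arbitrary integer with `|c₀| ≤ B N`, let `w(n)` be arbitrary real coefficients with
`|w(n)| ≤ log ^ T N`, and for every modulus `q` let `X(q) ≤ B N` be an arbitrary height. Then the sum over ALL moduli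
`q ≤ N ^ (1 - ε)` of the ABSOLUTE VALUE of the sum of `w(n) (ψ(X(q); q, a_n) - X(q) / φ(q))`, over the `n ≤ x` for which the
residue `a_n = c₀ + κ ⌊f n⌋` is positive and coprime to `q`, is at most `x N / log ^ U N`.

**(2)** Part (1) applies to all the functions `f t = ∑ a z t ^ z.1 (log t) ^ z.2` (finite sums) with a leading term `z₀`
whose coefficient is positive and whose exponent `c = z₀.1` is positive and not an integer; for example to `n ^ c`. -/
theorem result :
    (∀ (c : ℝ) (f : ℝ → ℝ), 0 < c → (∀ m : ℕ, c ≠ m) → SmoothlyVarying c f →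
      ∀ (κ : ℤ), κ ≠ 0 → ∀ (B T U A : ℕ) (ε : ℝ), 0 < ε → ε < 1 → ∃ N₀ : ℕ, ∀ N : ℕ, N₀ ≤ N → ∀ x : ℕ,
      (∀ n ∈ Icc 1 x, f n ≤ N) → (N : ℝ) ≤ Real.log N ^ A * f x →
      ∀ c₀ : ℤ, |c₀| ≤ B * N → ∀ w : ℕ → ℝ, (∀ n, |w n| ≤ Real.log N ^ T) → ∀ X : ℕ → ℕ, (∀ q, X q ≤ B * N) →
      ∑ q ∈ Icc 1 ⌊(N : ℝ) ^ (1 - ε)⌋₊, |total f x κ c₀ w (X q) q| ≤ x * (N / Real.log N ^ U)) ∧
    (∀ (F : Finset (ℝ × ℝ)) (a : ℝ × ℝ → ℝ) (z₀ : ℝ × ℝ), z₀ ∈ F → 0 < a z₀ →
      (∀ z ∈ F, z ≠ z₀ → z.1 < z₀.1 ∨ z.1 = z₀.1 ∧ z.2 < z₀.2) →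
      SmoothlyVarying z₀.1 (fun t => ∑ z ∈ F, a z * t ^ z.1 * Real.log t ^ z.2)) := by
  refine ⟨fun c f hc hn hf κ hκ B T U A ε hε hε1 => ?_, fun F a z₀ h1 h2 h3 => gp_sv F a z₀ h1 h2 h3⟩
  obtain ⟨N₀, h0⟩ := (sv_of c hc hn f hf).eh κ hκ B T U A ε hε hε1
  refine ⟨N₀, fun N hN x hup hlow c₀ hc₀ w hw X hX => ?_⟩
  have h1 := h0 N hN x (by simpa only [iteratedDeriv_zero] using hup) (by simpa only [iteratedDeriv_zero] using hlow)
    c₀ hc₀ w hw X hX
  simp only [val_iter] at h1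
  exact h1

end Pool.Agent.Results.MP_a78e8f_nt.NonIntegralOrderAverages
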