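import Mathlib
import Pool.Agent.N9.EH.Form

/-!
# The Elliott–Halberstam conjecture in all monotone sieved sequential random models of the primes

The integers are decided one after the other; the multiples of the primes of a finite set `Q` are
never chosen, and the conditional probability of choosing an integer `n + 1` which is not such a
multiple, given the decisions up to `n`, is `lam n`, where `lam` is any random non-negative and
non-increasing sequence. Hawkins' random sieve is such a model, with `Q = ∅`. In every such model,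
almost surely, the assertion of Elliott and Halberstam holds for the chosen integers, for every level
`θ < 1`, with a power of `x` saved, in the strong form of Montgomery's conjecture, and also for all
finite systems of distinct nonconstant integer polynomials with positive leading coefficients at once
(twins, `k`-tuples, Bateman–Horn systems), uniformly in all moduli `q ≤ x` and all residue classes.

Method (`Pool/Agent/N9/EH`): an exponential supermartingale (helper893) with a parameter adapted to the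
residue class gives the predictable sums along each of the polynomials, taken in the order of their
eventual size, with square root errors; the remaining sums are treated by partial summation, since the
conditional probabilities are monotone along each polynomial.

The notion of a monotone model, the lemma on Hawkins' sieve and the case of the chosen integers
themselves with logarithmic weights are from the team file `MP_848d44_nt.SquareRootBound` (helper893).
-/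

set_option autoImplicit false

open MeasureTheory Filter Set Polynomial
open scoped Topology

namespace Pool.Agent.Results.MP_a78e8f_nt.SievedModels

variable {Ω : Type}

/-- the conditional probability of choosing `n + 1` given the decisions up to `n` -/
noncomputable def cp [m : MeasurableSpace Ω] (μ : Measure Ω) (ℱ : Filtration ℕ m) (A : ℕ → Set Ω)
    (n : ℕ) (ω : Ω) : ℝ := (μ[(A (n + 1)).indicator (fun _ => (1 : ℝ)) | ℱ n]) ω

/-- `A n` is the event that `n` is chosen; adapted to `ℱ`; the multiples of the primes in `Q` are not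
chosen and the conditional probability of `A (n + 1)`, `n ≥ 2`, is `lam n` if no `p ∈ Q` divides
`n + 1`, where `lam` is a random non-negative and non-increasing sequence -/
def MonotoneModel [m : MeasurableSpace Ω] (μ : Measure Ω) (ℱ : Filtration ℕ m) (A : ℕ → Set Ω)
    (Q : Finset ℕ) : Prop :=
  (∀ n, MeasurableSet[ℱ n] (A n)) ∧ (∀ n, (∃ p ∈ Q, p ∣ n) → A n = ∅) ∧
  ∃ lam : ℕ → Ω → ℝ, ∀ᵐ ω ∂μ, ∀ n : ℕ, 2 ≤ n → 0 ≤ lam n ω ∧ lam (n + 1) ω ≤ lam n ω ∧
    ((∀ p ∈ Q, ¬ p ∣ n + 1) → cp μ ℱ A n ω = lam n ω)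

open Classical in
/-- The random sieve of Hawkins: `2` is chosen, and given the decisions up to `n ≥ 2` the number
`n + 1` is chosen with probability `∏ (1 - 1 / h)`, the product over the chosen `2 ≤ h ≤ n`. -/
def HawkinsSieve [m : MeasurableSpace Ω] (μ : Measure Ω) (ℱ : Filtration ℕ m) (A : ℕ → Set Ω) : Prop :=
  (∀ n, MeasurableSet[ℱ n] (A n)) ∧ A 2 = univ ∧
  ∀ n, 2 ≤ n → μ[(A (n + 1)).indicator (fun _ => (1 : ℝ)) | ℱ n] =ᵐ[μ]
    fun ω => ∏ h ∈ Finset.Icc 2 n, if ω ∈ A h then 1 - 1 / (h : ℝ) else 1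

/-- the class of `a` modulo `q` is admissible: no prime of `Q` divides both `a` and `q` -/
def Adm (Q : Finset ℕ) (q a : ℕ) : Prop := ∀ p ∈ Q, ¬ (p ∣ a ∧ p ∣ q)

/-- the analogue of Euler's function -/
noncomputable def phi (Q : Finset ℕ) (q : ℕ) : ℝ :=
  q * ∏ p ∈ Q.filter (fun p => p ∣ q), (1 - 1 / (p : ℝ))

/-- the number of the chosen `n` with `1 ≤ n ≤ x` and `n ≡ a` modulo `q` -/
noncomputable def pic (A : ℕ → Set Ω) (ω : Ω) (x q a : ℕ) : ℕ :=
  {n : ℕ | 1 ≤ n ∧ n ≤ x ∧ n ≡ a [MOD q] ∧ ω ∈ A n}.ncard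

/-- the number of the `n` with `1 ≤ n ≤ x` and `n ≡ a` modulo `q` for which all the values `f i (n)`
are chosen -/
noncomputable def cnt (A : ℕ → Set Ω) {k : ℕ} (f : Fin k → ℤ[X]) (ω : Ω) (x q a : ℕ) : ℕ :=
  {n : ℕ | 1 ≤ n ∧ n ≤ x ∧ n ≡ a [MOD q] ∧ ∀ i, ∃ v : ℕ, ω ∈ A v ∧ (f i).eval (n : ℤ) = v}.ncard

/-- the expected share of the class of `a` modulo `q`, with `W` the product of the primes in `Q`: the
number of the `b` modulo `W q`, `b ≡ a` modulo `q`, with `∏ f i (b)` prime to `W`, divided by `q` times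
the number of the `b` modulo `W` with `∏ f i (b)` prime to `W` -/
noncomputable def share (Q : Finset ℕ) {k : ℕ} (f : Fin k → ℤ[X]) (q a : ℕ) : ℝ :=
  ({b : ℕ | b < (∏ p ∈ Q, p) * q ∧ b ≡ a [MOD q] ∧ IsCoprime ((∏ i, f i).eval (b : ℤ))
    ((∏ p ∈ Q, p : ℕ) : ℤ)}.ncard : ℝ) /
  (q * ({b : ℕ | b < ∏ p ∈ Q, p ∧ IsCoprime ((∏ i, f i).eval (b : ℤ))
    ((∏ p ∈ Q, p : ℕ) : ℤ)}.ncard : ℝ))

open Pool.Agent.R528.RM Pool.Agent.N893.SM Pool.Agent.N9.EH

lemma cnt_eq (A : ℕ → Set Ω) {k : ℕ} (f : Fin k → ℤ[X]) (ω : Ω) (x q a : ℕ) :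
    (cnt A f ω x q a : ℝ) = ∑ n ∈ Finset.Icc 1 x, cl q (a % q) n * QQ A f n ω := by
  classical
  have e1 : ∀ n ∈ Finset.Icc 1 x, cl q (a % q) n * QQ A f n ω =
      if n % q = a % q ∧ ∀ i, ∃ v : ℕ, ω ∈ A v ∧ (f i).eval (n : ℤ) = v then 1 else 0 := by
    intro n _
    unfold cl QQ
    by_cases h1 : n % q = a % q
    · by_cases h2 : ∀ i, ∃ v : ℕ, ω ∈ A v ∧ (f i).eval (n : ℤ) = v
      · rw [if_pos h1, if_pos h2, if_pos ⟨h1, h2⟩, mul_one]
      · rw [if_neg h2, mul_zero, if_neg (fun h => h2 h.2)]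
    · rw [if_neg h1, zero_mul, if_neg (fun h => h1 h.1)]
  rw [Finset.sum_congr rfl e1, Finset.sum_boole]
  unfold cnt
  congr 1
  rw [← Set.ncard_coe_finset]
  congr 1
  ext n
  simp only [Set.mem_ofPred_eq, Finset.coe_filter, Finset.mem_Icc, Nat.ModEq]
  tauto

lemma cnt_one (A : ℕ → Set Ω) {k : ℕ} (f : Fin k → ℤ[X]) (ω : Ω) (x : ℕ) :
    (cnt A f ω x 1 0 : ℝ) = ∑ n ∈ Finset.Icc 1 x, QQ A f n ω := by
  rw [cnt_eq]
  refine Finset.sum_congr rfl fun n _ => ?_
  rw [Nat.zero_mod, cl_one, one_mul]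

lemma share_eq (Q : Finset ℕ) {k : ℕ} (f : Fin k → ℤ[X]) (q a : ℕ) :
    kap (chiP f (∏ p ∈ Q, p)) (∏ p ∈ Q, p) q (a % q) = share Q f q a := by
  classical
  unfold kap share
  set W := ∏ p ∈ Q, p with hWdef
  have e1 : ∑ b ∈ Finset.range (W * q), cl q (a % q) b * chiP f W b =
      ({b : ℕ | b < W * q ∧ b ≡ a [MOD q] ∧ IsCoprime ((∏ i, f i).eval (b : ℤ)) (W : ℤ)}.ncard : ℝ) := by
    have e1 : ∀ n ∈ Finset.range (W * q), cl q (a % q) n * chiP f W n =
        if n % q = a % q ∧ IsCoprime ((∏ i, f i).eval (n : ℤ)) (W : ℤ) then 1 else 0 := by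
      intro n _
      unfold cl chiP
      by_cases h1 : n % q = a % q
      · by_cases h2 : IsCoprime ((∏ i, f i).eval (n : ℤ)) (W : ℤ)
        · rw [if_pos h1, if_pos h2, if_pos ⟨h1, h2⟩, mul_one]
        · rw [if_neg h2, mul_zero, if_neg (fun h => h2 h.2)]
      · rw [if_neg h1, zero_mul, if_neg (fun h => h1 h.1)]
    rw [Finset.sum_congr rfl e1, Finset.sum_boole]
    congr 1
    rw [← Set.ncard_coe_finset]
    congr 1
    ext n
    simp only [Set.mem_ofPred_eq, Finset.coe_filter, Finset.mem_range, Nat.ModEq]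
  have e2 : ∑ b ∈ Finset.range W, chiP f W b =
      ({b : ℕ | b < W ∧ IsCoprime ((∏ i, f i).eval (b : ℤ)) (W : ℤ)}.ncard : ℝ) := by
    unfold chiP
    rw [Finset.sum_boole]
    congr 1
    rw [← Set.ncard_coe_finset]
    congr 1
    ext n
    simp only [Set.mem_ofPred_eq, Finset.coe_filter, Finset.mem_range]
  rw [e1, e2]

lemma pic_eq (A : ℕ → Set Ω) (ω : Ω) (x q a : ℕ) :
    pic A ω x q a = cnt A (fun _ : Fin 1 => (X : ℤ[X])) ω x q a := by
  unfold pic cnt
  congr 1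
  ext n
  simp only [Set.mem_ofPred_eq, eval_X]
  constructor
  · rintro ⟨h1, h2, h3, h4⟩
    exact ⟨h1, h2, h3, fun _ => ⟨n, h4, rfl⟩⟩
  · rintro ⟨h1, h2, h3, h4⟩
    obtain ⟨v, hv, hv2⟩ := h4 0
    have : n = v := by exact_mod_cast hv2
    rw [this] at h1 h2 h3 ⊢
    exact ⟨h1, h2, h3, hv⟩

lemma share_X (Q : Finset ℕ) (hQ : ∀ p ∈ Q, p.Prime) {q a : ℕ} (hq : 1 ≤ q) (ha : Adm Q q a) :
    share Q (fun _ : Fin 1 => (X : ℤ[X])) q a = 1 / phi Q q := by
  rw [← share_eq]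
  apply kapX Q hQ hq (Nat.mod_lt a hq)
  · rintro p hp ⟨h1, h2⟩
    exact ha p hp ⟨(Nat.dvd_mod_iff h2).1 h1, h2⟩
  · intro n
    unfold chiP
    have e : IsCoprime ((∏ i : Fin 1, (X : ℤ[X])).eval (n : ℤ)) ((∏ p ∈ Q, p : ℕ) : ℤ) ↔
        Nat.Coprime n (∏ p ∈ Q, p) := by
      rw [Fin.prod_univ_one, eval_X, Nat.isCoprime_iff_coprime]
    by_cases h : Nat.Coprime n (∏ p ∈ Q, p)
    · rw [if_pos h, if_pos (e.2 h)]
    · rw [if_neg h, if_neg (fun h' => h (e.1 h'))]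

end Pool.Agent.Results.MP_a78e8f_nt.SievedModels

open Pool.Agent.Results.MP_a78e8f_nt.SievedModels Pool.Agent.R528.RM Pool.Agent.N893.SM Pool.Agent.N9.EH
  Pool.Agent.N9.AD

/-- Hawkins' sieve is a monotone model with `Q = ∅`. In every monotone model, almost surely:
(1) (Elliott–Halberstam) for all real `θ < 1` and `B` there is `C` such that for all `x > 2` and all
choices of admissible classes `a q` the sum over `q ≤ x ^ θ` of `|π(x; q, a q) - π(x) / φ(q)|` is at most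
`C x (log x) ^ (-B)`; (2) (Montgomery) for some `C`, `|π(x; q, a) - π(x) / φ(q)|` is at most
`C (√((x / q) log x) + log x)` for all `x ≥ 2`, `q ≤ x` and admissible `a`; (3) for all `k` and all
distinct `f_1, …, f_k` in `ℤ[X]`, nonconstant with positive leading coefficients, and the numbers
`π_f(x; q, a)` of the `n ≤ x`, `n ≡ a` modulo `q`, with all `f_i(n)` chosen: for some `C`, all `x ≥ 2`,
`q ≤ x` and ALL `a` one has `|π_f(x; q, a) - share π_f(x)| ≤ C (√((x / q) log x) + log x)`; the sum of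
these differences over `q ≤ N` (`a = a q` arbitrary) is at most `C (√(x N log x) + N log x)` for
`N ≤ x`, and at most `C x (log x) ^ (-B)` for `N = x ^ θ`, for all real `θ < 1` and `B`. -/
theorem Pool.Agent.Results.MP_a78e8f_nt.SievedModels.result
    {Ω : Type} [m : MeasurableSpace Ω] (μ : Measure Ω) [IsProbabilityMeasure μ]
    (ℱ : Filtration ℕ m) (A : ℕ → Set Ω) :
    (HawkinsSieve μ ℱ A → MonotoneModel μ ℱ A ∅) ∧
    (∀ Q : Finset ℕ, (∀ p ∈ Q, p.Prime) → MonotoneModel μ ℱ A Q → ∀ᵐ ω ∂μ,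
      (∀ θ B : ℝ, θ < 1 → ∃ C : ℝ, ∀ x : ℕ, 2 < x → ∀ a : ℕ → ℕ, (∀ q, Adm Q q (a q)) →
        ∑ q ∈ Finset.Icc 1 ⌊(x : ℝ) ^ θ⌋₊, |(pic A ω x q (a q) : ℝ) - pic A ω x 1 0 / phi Q q| ≤
          C * x * Real.log x ^ (-B)) ∧
      (∃ C : ℝ, ∀ x q a : ℕ, 2 ≤ x → 1 ≤ q → q ≤ x → Adm Q q a →
        |(pic A ω x q a : ℝ) - pic A ω x 1 0 / phi Q q| ≤
          C * (√((x : ℝ) / q * Real.log x) + Real.log x)) ∧
      ∀ (k : ℕ) (f : Fin k → ℤ[X]), Function.Injective f →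
        (∀ i, 0 < (f i).natDegree ∧ 0 < (f i).leadingCoeff) →
        (∃ C : ℝ, ∀ x q a : ℕ, 2 ≤ x → 1 ≤ q → q ≤ x →
          |(cnt A f ω x q a : ℝ) - share Q f q a * cnt A f ω x 1 0| ≤
            C * (√((x : ℝ) / q * Real.log x) + Real.log x)) ∧
        (∃ C : ℝ, ∀ x N : ℕ, 2 ≤ x → N ≤ x → ∀ a : ℕ → ℕ,
          ∑ q ∈ Finset.Icc 1 N, |(cnt A f ω x q (a q) : ℝ) - share Q f q (a q) * cnt A f ω x 1 0| ≤
            C * (√((x : ℝ) * N * Real.log x) + N * Real.log x)) ∧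
        ∀ θ B : ℝ, θ < 1 → ∃ C : ℝ, ∀ x : ℕ, 2 < x → ∀ a : ℕ → ℕ,
          ∑ q ∈ Finset.Icc 1 ⌊(x : ℝ) ^ θ⌋₊,
            |(cnt A f ω x q (a q) : ℝ) - share Q f q (a q) * cnt A f ω x 1 0| ≤
            C * x * Real.log x ^ (-B)) := by
  classical
  refine ⟨?_, ?_⟩
  · rintro ⟨h1, h2, h3⟩
    refine ⟨h1, fun n hn => ?_, fun n ω => ∏ h ∈ Finset.Icc 2 n, (if ω ∈ A h then 1 - 1 / (h : ℝ) else 1), ?_⟩
    · obtain ⟨p, hp, _⟩ := hn
      exact absurd hp (Finset.notMem_empty p)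
    · have hall : ∀ᵐ ω ∂μ, ∀ n, 2 ≤ n → cp μ ℱ A n ω = ∏ h ∈ Finset.Icc 2 n, (if ω ∈ A h then 1 - 1 / (h : ℝ) else 1) := by
        rw [ae_all_iff]
        intro n
        by_cases hn : 2 ≤ n
        · filter_upwards [h3 n hn] with ω hω _
          exact hω
        · exact Eventually.of_forall fun ω h => absurd h hn
      filter_upwards [hall] with ω hω n hn
      have hfac : ∀ h : ℕ, 2 ≤ h → 0 ≤ (if ω ∈ A h then 1 - 1 / (h : ℝ) else 1) ∧ (if ω ∈ A h then 1 - 1 / (h : ℝ) else 1) ≤ 1 := by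
        intro h hh
        have h2 : (2 : ℝ) ≤ h := by exact_mod_cast hh
        have h3 : 1 / (h : ℝ) ≤ 1 / 2 := one_div_le_one_div_of_le (by norm_num) h2
        have h4 : 0 ≤ 1 / (h : ℝ) := by positivity
        split_ifs
        · constructor <;> linarith
        · norm_num
      refine ⟨Finset.prod_nonneg fun h hh => (hfac h (Finset.mem_Icc.1 hh).1).1, ?_, fun _ => hω n hn⟩
      rw [← Finset.insert_Icc_right_eq_Icc_add_one (by omega), Finset.prod_insert (by simp)]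
      exact mul_le_of_le_one_left (Finset.prod_nonneg fun h hh => (hfac h (Finset.mem_Icc.1 hh).1).1) (hfac (n + 1) (by omega)).2
  rintro Q hQ ⟨hA, hcop, lam, hlam⟩
  have hW : 0 < ∏ p ∈ Q, p := Finset.prod_pos fun q hq => (hQ q hq).pos
  have hcopW : ∀ n : ℕ, n.Coprime (∏ p ∈ Q, p) ↔ ∀ p ∈ Q, ¬ p ∣ n := fun n => coprime_prod_iff Q hQ n
  have hlaw : ∀ᵐ ω ∂μ, ∀ (k : ℕ) (f : Fin k → ℤ[X]), Function.Injective f →
      (∀ i, 0 < (f i).natDegree ∧ 0 < (f i).leadingCoeff) →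
      ∃ C : ℝ, 0 < C ∧ ∀ x q a : ℕ, 2 ≤ x → 1 ≤ q → q ≤ x → a < q →
      |∑ n ∈ Finset.range x, (cl q a n - kap (chiP f (∏ p ∈ Q, p)) (∏ p ∈ Q, p) q a) * QQ A f n ω| ≤
        C * RR x q := by
    rw [ae_all_iff]
    intro k
    have := cF k
    rw [ae_all_iff]
    intro f
    by_cases hf : Function.Injective f ∧ ∀ i, 0 < (f i).natDegree ∧ 0 < (f i).leadingCoeff
    · filter_upwards [poly2 (μ := μ) (ℱ := ℱ) (A := A) hA hW (by
        intro n hn
        apply hcop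
        by_contra hcon
        push Not at hcon
        exact hn ((hcopW n).2 hcon)) lam (by
        filter_upwards [hlam] with ω hω n hn
        obtain ⟨g1, g2, g3⟩ := hω n hn
        exact ⟨g1, g2, fun hc => g3 ((hcopW (n + 1)).1 hc)⟩) k f hf.1 (fun i => (hf.2 i).1)
        (fun i => (hf.2 i).2)] with ω hω _ _
      exact hω
    · exact Eventually.of_forall fun ω h1 h2 => absurd ⟨h1, h2⟩ hf
  filter_upwards [hlaw] with ω hω
  -- the class law
  have hcls : ∀ (k : ℕ) (f : Fin k → ℤ[X]), Function.Injective f →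
      (∀ i, 0 < (f i).natDegree ∧ 0 < (f i).leadingCoeff) →
      ∃ C : ℝ, 0 < C ∧ ∀ x q a : ℕ, 2 ≤ x → 1 ≤ q → q ≤ x →
          |(cnt A f ω x q a : ℝ) - share Q f q a * cnt A f ω x 1 0| ≤ C * RS x q := by
    intro k f hf hf2
    obtain ⟨C, hC0, hC⟩ := hω k f hf hf2
    obtain ⟨C', hC'0, hC'⟩ := poly3 hW f hC0 hC
    refine ⟨C', hC'0, fun x q a hx hq hqx => ?_⟩
    have h1 := hC' x q (a % q) hx hq hqx (Nat.mod_lt a hq)
    rw [← cnt_eq, share_eq, ← cnt_one] at h1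
    exact h1
  have hsys : ∀ (k : ℕ) (f : Fin k → ℤ[X]), Function.Injective f →
        (∀ i, 0 < (f i).natDegree ∧ 0 < (f i).leadingCoeff) →
        (∃ C : ℝ, ∀ x q a : ℕ, 2 ≤ x → 1 ≤ q → q ≤ x →
          |(cnt A f ω x q a : ℝ) - share Q f q a * cnt A f ω x 1 0| ≤
            C * (√((x : ℝ) / q * Real.log x) + Real.log x)) ∧
        (∃ C : ℝ, ∀ x N : ℕ, 2 ≤ x → N ≤ x → ∀ a : ℕ → ℕ,
          ∑ q ∈ Finset.Icc 1 N, |(cnt A f ω x q (a q) : ℝ) - share Q f q (a q) * cnt A f ω x 1 0| ≤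
            C * (√((x : ℝ) * N * Real.log x) + N * Real.log x)) ∧
        ∀ θ B : ℝ, θ < 1 → ∃ C : ℝ, ∀ x : ℕ, 2 < x → ∀ a : ℕ → ℕ,
          ∑ q ∈ Finset.Icc 1 ⌊(x : ℝ) ^ θ⌋₊,
            |(cnt A f ω x q (a q) : ℝ) - share Q f q (a q) * cnt A f ω x 1 0| ≤
            C * x * Real.log x ^ (-B) := by
    intro k f hf hf2
    obtain ⟨C, hC0, hC⟩ := hcls k f hf hf2
    have hN : ∀ x N : ℕ, 2 ≤ x → N ≤ x → ∀ a : ℕ → ℕ,
          ∑ q ∈ Finset.Icc 1 N, |(cnt A f ω x q (a q) : ℝ) - share Q f q (a q) * cnt A f ω x 1 0| ≤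
            2 * C * (√((x : ℝ) * N * Real.log x) + N * Real.log x) := by
      intro x N hx hNx a
      calc ∑ q ∈ Finset.Icc 1 N, |(cnt A f ω x q (a q) : ℝ) - share Q f q (a q) * cnt A f ω x 1 0| ≤
            ∑ q ∈ Finset.Icc 1 N, C * RS x q := Finset.sum_le_sum fun q hq =>
              hC x q (a q) hx (Finset.mem_Icc.1 hq).1 ((Finset.mem_Icc.1 hq).2.trans hNx)
        _ = C * ∑ q ∈ Finset.Icc 1 N, RS x q := by rw [Finset.mul_sum]
        _ ≤ C * (2 * (√((x : ℝ) * N * Real.log x) + N * Real.log x)) :=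
            mul_le_mul_of_nonneg_left (avg hx) hC0.le
        _ = _ := by ring
    refine ⟨⟨C, fun x q a hx hq hqx => hC x q a hx hq hqx⟩, ⟨2 * C, hN⟩, ?_⟩
    intro θ B hθ
    obtain ⟨M, hM0, hM⟩ := level θ B hθ
    refine ⟨2 * C * M, fun x hx a => ?_⟩
    have hx1 : (1 : ℝ) ≤ x := by exact_mod_cast (by omega : 1 ≤ x)
    have hx0 : (0 : ℝ) < x := by linarith
    have hfl : ((⌊(x : ℝ) ^ θ⌋₊ : ℕ) : ℝ) ≤ (x : ℝ) ^ θ := Nat.floor_le (by positivity)
    have hle : (x : ℝ) ^ θ ≤ x := by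
      calc (x : ℝ) ^ θ ≤ (x : ℝ) ^ (1 : ℝ) := Real.rpow_le_rpow_of_exponent_le hx1 hθ.le
        _ = x := Real.rpow_one _
    have h1 := hN x ⌊(x : ℝ) ^ θ⌋₊ (by omega) (by exact_mod_cast hfl.trans hle) a
    have h2 := hM x ⌊(x : ℝ) ^ θ⌋₊ hx hfl
    refine h1.trans ?_
    have h3 := mul_le_mul_of_nonneg_left h2 (by positivity : (0 : ℝ) ≤ 2 * C)
    linarith
  have hX : Function.Injective (fun _ : Fin 1 => (X : ℤ[X])) := fun i j _ => Subsingleton.elim i j
  have hX2 : ∀ i : Fin 1, 0 < ((fun _ : Fin 1 => (X : ℤ[X])) i).natDegree ∧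
      0 < ((fun _ : Fin 1 => (X : ℤ[X])) i).leadingCoeff := by
    intro i
    simp
  obtain ⟨s1, s2, s3⟩ := hsys 1 (fun _ => X) hX hX2
  have hpt : ∀ x q a : ℕ, 1 ≤ q → Adm Q q a →
      (pic A ω x q a : ℝ) - pic A ω x 1 0 / phi Q q =
        (cnt A (fun _ : Fin 1 => (X : ℤ[X])) ω x q a : ℝ) -
          share Q (fun _ : Fin 1 => (X : ℤ[X])) q a * cnt A (fun _ : Fin 1 => (X : ℤ[X])) ω x 1 0 := by
    intro x q a hq ha
    rw [share_X Q hQ hq ha, pic_eq, pic_eq]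
    ring
  refine ⟨?_, ?_, hsys⟩
  · intro θ B hθ
    obtain ⟨C, hC⟩ := s3 θ B hθ
    refine ⟨C, fun x hx a ha => ?_⟩
    refine le_trans (le_of_eq ?_) (hC x hx a)
    refine Finset.sum_congr rfl fun q hq => ?_
    rw [hpt x q (a q) (Finset.mem_Icc.1 hq).1 (ha q)]
  · obtain ⟨C, hC⟩ := s1
    refine ⟨C, fun x q a hx hq hqx ha => ?_⟩
    rw [hpt x q a hq ha]
    exact hC x q a hx hq hqx
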