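import Pool.Agent.N766.CS.Rea

/-!
The Elliott-Halberstam estimate for the cosets of subgroups of moderate index, at every level of
distribution `x ^ θ` (also `θ ≥ 1`).
-/

set_option autoImplicit false

namespace Pool.Agent.Results.MP_a78e8f_nt.SubgroupCosets

open Finset
open Pool.Agent.N766.CS

/-- the number of the primes `p ≤ y` whose class modulo `q` lies in the coset `a H` -/
noncomputable def primesIn (y : ℝ) (q : ℕ) (a : (ZMod q)ˣ) (H : Subgroup (ZMod q)ˣ) : ℕ :=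
  Nat.card {p : ℕ // p.Prime ∧ (p : ℝ) ≤ y ∧ ∃ h ∈ H, (p : ZMod q) = (a : ZMod q) * (h : ZMod q)}

/-- the number of the primes `p ≤ y` -/
noncomputable def primesUpTo (y : ℝ) : ℕ := Nat.card {p : ℕ // p.Prime ∧ (p : ℝ) ≤ y}

lemma le_iff (p : ℕ) (hp : p.Prime) (y : ℝ) : (p : ℝ) ≤ y ↔ p ∈ Icc 1 ⌊y⌋₊ := by
  rw [mem_Icc]
  constructor
  · intro h
    exact ⟨hp.one_lt.le, Nat.le_floor h⟩
  · rintro ⟨h1, h2⟩
    exact (Nat.le_floor_iff' hp.ne_zero).1 h2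

open Classical in
lemma primesIn_eq (y : ℝ) (q : ℕ) (a : (ZMod q)ˣ) (H : Subgroup (ZMod q)ˣ) :
    primesIn y q a H = cnt ⌊y⌋₊ q H a := by
  unfold primesIn cnt
  apply Nat.subtype_card
  intro p
  rw [mem_filter]
  constructor
  · rintro ⟨h1, h2, h3⟩
    refine ⟨h2, (le_iff p h2 y).2 h1, ?_⟩
    obtain ⟨h, hh, h4⟩ := h3
    exact ⟨h, hh, by rw [h4, Units.val_mul]⟩
  · rintro ⟨h1, h2, h, hh, h4⟩
    exact ⟨(le_iff p h1 y).1 h2, h1, h, hh, by rw [h4, Units.val_mul]⟩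

lemma primesUpTo_eq (y : ℝ) : (primesUpTo y : ℝ) = pi' ⌊y⌋₊ := by
  unfold primesUpTo pi'
  congr 1
  apply Nat.subtype_card
  intro p
  rw [mem_filter]
  constructor
  · rintro ⟨h1, h2⟩
    exact ⟨h2, (le_iff p h2 y).2 h1⟩
  · rintro ⟨h1, h2⟩
    exact ⟨(le_iff p h1 y).1 h2, h1⟩

open Classical in
/-- For all `θ, ε > 0` and all `A` there is `C` such that for all `x ≥ 3`, whatever subgroups
`H q`, cosets `a q · H q` and heights `y q ≤ x` one chooses, the discrepancies of the primes in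
these cosets are `≤ C x / (log x) ^ A` in total, over all the moduli `q ≤ x ^ θ` at which the index
of `H q` is at most `x ^ (-ε) * max (x ^ (1 / 4)) (x / q)`. -/
theorem result (θ ε A : ℝ) (hθ : 0 < θ) (hε : 0 < ε) :
    ∃ C : ℝ, ∀ x : ℝ, 3 ≤ x →
    ∀ (H : (q : ℕ) → Subgroup (ZMod q)ˣ) (a : (q : ℕ) → (ZMod q)ˣ) (y : ℕ → ℝ),
    (∀ q, y q ≤ x) →
    ∑ q ∈ (Icc 1 ⌊x ^ θ⌋₊).filter
        (fun q => ((H q).index : ℝ) ≤ x ^ (-ε) * max (x ^ (1 / 4 : ℝ)) (x / q)),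
      (1 / (q : ℝ)) * |((H q).index : ℝ) * primesIn (y q) q (a q) (H q) - primesUpTo (y q)| ≤
    C * (x / Real.log x ^ A) := by
  obtain ⟨C, _, h⟩ := real_heights θ ε A hθ hε
  refine ⟨C, fun x hx H a y hy => ?_⟩
  refine le_trans (le_of_eq ?_) (h x hx H a y hy)
  apply sum_congr
  · apply filter_congr
    intro q _
    rfl
  · intro q _
    rw [primesIn_eq, primesUpTo_eq]
    rfl

end Pool.Agent.Results.MP_a78e8f_nt.SubgroupCosets
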