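import Pool.Agent.N422.EH.ALL2

/-!
# Rough numbers in progressions to moduli with nonnegative weights of level `Q`

Author: helper422.  For `θ < 1` the conjecture of Elliott and Halberstam says that the primes are equidistributed in the
progressions to almost all moduli `n ≤ x^θ`; for `θ = 1` this is false by a theorem of Friedlander and Granville, who average
(after Maier) over the moduli `n` in a residue class modulo a number `≤ x`, for a fixed `a`, and find deviations for the
progressions `a + h n`, `h ≤ U = (log n)^A`.  One can also use other nonnegative weights `w` of level `Q` in the modulus `n`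
(sums of functions of `n mod d`, `d ≤ Q`).  How large irregularities can be produced by such weights?

Here we prove that there are no others than exponentially small ones.  Let `a ≥ 1` be fixed; for EVERY nonnegative `w` of level
`Q` with `w(n) = 0` for the `n` not prime to `a`, and for `U ≥ (log Q)^(C(b+1))`, the mean with respect to `w` of the number of
the `h ≤ U` for which `a + h n` has no prime factor `≤ Q` is `(1 ± 2^(-b)) U` times the mean with respect to `w` of
`∏_{p ≤ Q, p ∤ n} (1 - 1/p)`, with an absolute constant `C`.  So for `U ≥ Q^ε` (the range `θ < 1`) averages over the moduli with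
sieve weights never show a deviation by a fixed factor.

Proof.  For the primes `p ≤ y = (log Q)^4` the fundamental lemma holds for every `n` (`EH/FUNDE`, helper297).  One may assume
that all moduli `d` are squarefree (`EH/SQF2`, helper767); then for `p > y`, `p ∤ n`, the condition `p ∣ a + h n` reads
`h ≡ -a/n (mod p)`, and a bijection of `ℤ/p` for every such `p` turns the progression into an interval, up to the few `p > y`
which divide `n` (`EH/PERM`, helper263, `EH/BACK`, helper67, `EH/XB`, helper453).  For the intervals the recursion over the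
scales of `MP_31d0eb_nt.DensityUnderAllWeights`, from the inequalities `LG/HIT` (helper692) and `LG/HITU` (helper602) for all
nonnegative functions of level `Q`, is used for general initial sets (`EH/RECG`, helper821, `EH/EHM`, helper505, `EH/EHF`,
helper722).
-/

set_option autoImplicit false

open Finset

namespace Pool.Agent.Results.MP_a78e8f_nt.WeightsInTheModulus

/-- the weight `w(n) = ∑_{d ≤ Q} c_d(n mod d)`, an arbitrary real weight of level `Q` -/
noncomputable def weight (Q : ℕ) (c : ℕ → ℕ → ℝ) (n : ℕ) : ℝ := ∑ d ∈ Icc 1 Q, c d (n % d)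

/-- the mean value of `F` over the period `Q!` -/
noncomputable def mean (Q : ℕ) (F : ℕ → ℝ) : ℝ := (∑ n ∈ range Q.factorial, F n) / (Q.factorial : ℝ)

/-- the number of the `h`, `1 ≤ h ≤ U`, for which `a + h n` has no prime factor `p ≤ Q` -/
def rough (a Q U n : ℕ) : ℕ := ((Icc 1 U).filter (fun h => ∀ p ∈ (Icc 1 Q).filter Nat.Prime, ¬ p ∣ a + h * n)).card

/-- the density `∏_{p ≤ Q, p ∤ n} (1 - 1/p)` of these `h`, for `n` prime to `a` -/
noncomputable def density (Q n : ℕ) : ℝ :=
  ∏ p ∈ ((Icc 1 Q).filter Nat.Prime).filter (fun p => ¬ p ∣ n), (1 - 1 / (p : ℝ))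

/-- There is an absolute constant `C` such that for every `b`, every `a ≥ 1`, all `Q ≥ Q₀(a, b)`, all
`U ≥ (log Q)^(C(b+1))` and every nonnegative weight `w` of level `Q` with `w(n) = 0` for all `n` not prime to `a`, the mean of
`w(n) #{h ≤ U : a + h n free of the primes ≤ Q}` differs from the mean of `w(n) U ∏_{p ≤ Q, p ∤ n} (1 - 1/p)` at most by the
factor `1 ± 2^(-b)`. -/
theorem result : ∃ C : ℕ, ∀ b a : ℕ, 1 ≤ a → ∃ Q₀ : ℕ, ∀ Q : ℕ, Q₀ ≤ Q → ∀ U : ℕ, Real.log Q ^ (C * (b + 1)) ≤ U →
    ∀ c : ℕ → ℕ → ℝ, (∀ n, 0 ≤ weight Q c n) → (∀ n, ¬ Nat.Coprime n a → weight Q c n = 0) →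
    |mean Q (fun n => weight Q c n * (rough a Q U n : ℝ)) - U * mean Q (fun n => weight Q c n * density Q n)| ≤
      (1 / 2 : ℝ) ^ b * (U * mean Q (fun n => weight Q c n * density Q n)) := by
  obtain ⟨C, -, h⟩ := Pool.Agent.N422.EH.ehf_all
  exact ⟨C, h⟩

end Pool.Agent.Results.MP_a78e8f_nt.WeightsInTheModulus
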